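import Pool.Agent.Run7.h245.SR.Iface1
import Pool.Agent.N547.PF.Dis

/-!
# Project SR (helper245), piece DISR (helper824): a basis over the integers of a lattice with a larger dual, and
its discriminant (adapted from `N547/PF/Dis.lean`)
-/

set_option autoImplicit false
set_option linter.all false

open Polynomial Matrix NumberField
open scoped Classical

namespace Run7.h824.SR

open Pool.Agent.N783.PF
open Pool.Agent.Run7.h245.SR
open Pool.Agent.N547.PF (top_eq exists_basis exists_codiff)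

/-- The bound for the discriminant. -/
theorem core {F L : Type} [Field F] [NumberField F] [Field L] [NumberField L] [Algebra F L]
    {g : ℕ} {f : (𝓞 F)[X]} {θ : L} (m₀ m₁ m : ℕ) (hmm : m = m₀ * m₁) (hm : m ≠ 0) (hint : ∀ y : F,
      (∀ a : 𝓞 F, ∃ z : ℤ, Algebra.trace ℚ F ((a : F) * y) = z) → IsIntegral ℤ ((m₁ : F) * y))
    (hG : IsGen g f θ) (α : L) (hα : α ≠ 0) (Λ : Submodule (𝓞 F) L) (hL : LatR hG m₀ α Λ) (N : ℕ)
    (hrank : Module.finrank ℚ L = N) (b : Fin N → L) (hb : LinearIndependent ℚ b)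
    (hbΛ : ∀ x : L, x ∈ Λ ↔ ∃ c : Fin N → ℤ, x = ∑ i, (c i : L) * b i) :
    |(Matrix.of fun i j => Algebra.trace ℚ L
      (b i * b j / (α * aeval θ (derivative (fF f))))).det| ≤ (m : ℚ) ^ N := by
  have : FiniteDimensional F L := FiniteDimensional.of_finrank_pos (by rw [hG.rank]; omega)
  have hN0 : 0 < N := by
    rw [← hrank]
    exact Module.finrank_pos
  have : Nonempty (Fin N) := ⟨⟨0, hN0⟩⟩
  let bb : Module.Basis (Fin N) ℚ L :=
    basisOfLinearIndependentOfCardEqFinrank hb (by rw [Fintype.card_fin, hrank])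
  have hbb : ∀ i, bb i = b i := fun i => by
    rw [coe_basisOfLinearIndependentOfCardEqFinrank]
  set D := aeval θ (derivative (fF f)) with hD
  have hD0 : D ≠ 0 := by
    intro h0
    have h1 := top_eq hG (θ ^ (2 * g))
    rw [← hD, h0, div_zero, map_zero] at h1
    have h2 : hG.top (θ ^ (2 * g)) = 1 := by
      have e1 : θ ^ (2 * g) = hG.basis (Fin.last (2 * g)) := by
        rw [hG.basis_apply]
        rfl
      rw [e1]
      unfold IsGen.top
      rw [Module.Basis.coord_apply, Module.Basis.repr_self, Finsupp.single_eq_same]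
    rw [h2] at h1
    exact one_ne_zero h1
  set δ := α * D with hδ
  have hδ0 : δ ≠ 0 := mul_ne_zero hα hD0
  let d := bb.traceDual
  have hdb : ∀ i j, Algebra.trace ℚ L (d i * b j) = if j = i then 1 else 0 := by
    intro i j
    rw [← hbb]
    exact bb.trace_traceDual_mul i j
  have hmem : ∀ i, (m : L) * (δ * d i) ∈ Λ := by
    intro i
    have e0 : (m : L) * (δ * d i) = (m₀ : L) * ((m₁ : L) * (δ * d i)) := by
      rw [hmm]
      push_cast
      ring
    rw [e0]
    refine hL.dual _ fun x hx => ?_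
    have h1 : x * ((m₁ : L) * (δ * d i)) / α = (m₁ : F) • (x * (δ * d i) / α) := by
      rw [Algebra.smul_def, map_natCast]
      ring
    rw [h1, map_smul, smul_eq_mul]
    refine hint _ fun a => ?_
    have h2 : (a : F) * hG.top (x * (δ * d i) / α) = Algebra.trace F L ((a • x) * d i) := by
      rw [top_eq, ← smul_eq_mul, ← map_smul, ← hD]
      congr 1
      rw [Algebra.smul_def, Algebra.smul_def, hδ, IsScalarTower.algebraMap_apply (𝓞 F) F L]
      field_simp
    rw [h2, Algebra.trace_trace]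
    obtain ⟨c, hc⟩ := (hbΛ (a • x)).mp (Λ.smul_mem a hx)
    refine ⟨c i, ?_⟩
    rw [hc, Finset.sum_mul, map_sum]
    have h3 : ∀ j, Algebra.trace ℚ L ((c j : L) * b j * d i) = if j = i then (c j : ℚ) else 0 := by
      intro j
      have h4 : (c j : L) * b j * d i = (c j : ℚ) • (d i * b j) := by
        rw [Algebra.smul_def, map_intCast]
        ring
      rw [h4, map_smul, hdb, smul_eq_mul, mul_ite, mul_one, mul_zero]
    rw [Finset.sum_congr rfl fun j _ => h3 j]
    simp
  choose c hc using fun i => (hbΛ _).mp (hmem i)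
  set G : Matrix (Fin N) (Fin N) ℚ := Matrix.of fun i j => Algebra.trace ℚ L (b i * b j / δ) with hGm
  let Cm : Matrix (Fin N) (Fin N) ℤ := Matrix.of c
  have hmul : Cm.map (Int.cast : ℤ → ℚ) * G = (m : ℚ) • (1 : Matrix (Fin N) (Fin N) ℚ) := by
    ext i k
    rw [Matrix.mul_apply, Matrix.smul_apply, Matrix.one_apply, smul_eq_mul]
    have h1 : ∑ j, (Cm.map (Int.cast : ℤ → ℚ)) i j * G j k =
        Algebra.trace ℚ L ((∑ j, (c i j : L) * b j) * b k / δ) := by
      rw [Finset.sum_mul, Finset.sum_div, map_sum]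
      refine Finset.sum_congr rfl fun j _ => ?_
      have h2 : (c i j : L) * b j * b k / δ = (c i j : ℚ) • (b j * b k / δ) := by
        rw [Algebra.smul_def, map_intCast]
        ring
      rw [h2, map_smul, smul_eq_mul]
      rfl
    rw [h1, ← hc i]
    have h3 : (m : L) * (δ * d i) * b k / δ = (m : ℚ) • (d i * b k) := by
      rw [Algebra.smul_def, map_natCast]
      field_simp
    rw [h3, map_smul, hdb, smul_eq_mul]
    congr 1
    by_cases h : i = k
    · rw [if_pos h, if_pos h.symm]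
    · rw [if_neg h, if_neg (Ne.symm h)]
  have hdet := congrArg Matrix.det hmul
  rw [Matrix.det_mul, Matrix.det_smul, Matrix.det_one, mul_one, Fintype.card_fin] at hdet
  have h4 : (Cm.map (Int.cast : ℤ → ℚ)).det = ((Cm.det : ℤ) : ℚ) :=
    (RingHom.map_det (Int.castRingHom ℚ) Cm).symm
  rw [h4] at hdet
  have hm' : (m : ℚ) ^ N ≠ 0 := pow_ne_zero _ (by exact_mod_cast hm)
  have h5 : Cm.det ≠ 0 := by
    intro h
    rw [h, Int.cast_zero, zero_mul] at hdet
    exact hm' hdet.symm
  have h6 : (1 : ℚ) ≤ |((Cm.det : ℤ) : ℚ)| := by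
    have : (1 : ℤ) ≤ |Cm.det| := Int.one_le_abs h5
    exact_mod_cast this
  have h7 : |((Cm.det : ℤ) : ℚ)| * |G.det| = (m : ℚ) ^ N := by
    rw [← abs_mul, hdet, abs_of_nonneg (by positivity)]
  have h8 : |G.det| ≤ (m : ℚ) ^ N := by
    rw [← h7]
    exact le_mul_of_one_le_left (abs_nonneg _) h6
  exact h8

/-- **DISR.** -/
theorem disr : S_DISR := by
  intro g F _ _ m₀ hm₀
  obtain ⟨m, hm, hint⟩ := exists_codiff F
  refine ⟨(m₀ * m) ^ ((2 * g + 1) * Module.finrank ℚ F), ?_⟩
  intro L _ _ _ f θ hG α Λ hα hL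
  obtain ⟨b, hb, hbΛ⟩ := exists_basis hG Λ hL.fg hL.span
  refine ⟨b, hb, hbΛ, ?_⟩
  have : FiniteDimensional F L := FiniteDimensional.of_finrank_pos (by rw [hG.rank]; omega)
  have hrank : Module.finrank ℚ L = (2 * g + 1) * Module.finrank ℚ F := by
    rw [← Module.finrank_mul_finrank ℚ F L, hG.rank, mul_comm]
  rw [Nat.cast_pow]
  exact core m₀ m (m₀ * m) rfl (mul_ne_zero hm₀ hm) hint hG α hα Λ hL _ hrank b hb hbΛ

end Run7.h824.SR
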