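import Pool.Agent.Run7.h245.SR.Iface1
import Pool.Agent.N771.PF.Core

/-!
# Project SR (helper245), piece PRX (helper824): nonsquare classes which are trivial at many primes give bad
polynomials (adapted from the end of `N771/PF/Core.lean`)
-/

set_option autoImplicit false
set_option linter.all false

open Polynomial IsDedekindDomain Matrix NumberField
open scoped Classical

namespace Run7.h824.SR

open Pool.Agent.N783.PF
open Pool.Agent.Run7.h245.SR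
open Pool.Agent.N874.PP (Ev Sq1 U0)
open Pool.Agent.N771.PF (rd_eq sep_q)

/-- the residues modulo `𝔮 q` -/
theorem cg_con {F : Type} [Field F] [NumberField F] {g W : ℕ} {f : (𝓞 F)[X]} {S : Finset ℕ}
    {𝔮 : ℕ → Ideal (𝓞 F)} {r P : ℕ → (𝓞 F)[X]} (hS : GoodS g W S 𝔮 r P)
    (hF : ∀ q ∈ S, Cg (sp F q) f (P q)) : ∀ q ∈ S, Cg (𝔮 q) f (X * r q) := by
  intro q hq j
  obtain ⟨-, -, -, -, -, -, hmem, -, -, -, -, -, -, hcg, -⟩ := hS q hq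
  have h1 := hF q hq j
  have h2 : sp F q ≤ 𝔮 q := by
    rw [sp, Ideal.span_singleton_le_iff_mem]
    exact hmem
  have h3 := Ideal.add_mem _ (h2 h1) (hcg j)
  have e : f.coeff j - (X * r q).coeff j =
      f.coeff j - (P q).coeff j + ((P q).coeff j - (X * r q).coeff j) := by ring
  rw [e]
  exact h3

/-- **PRX** -/
theorem prx (h1 : S_SDR) (h2 : S_TVR) (h3 : S_LBR) (h4 : S_NS) : S_PRX := by
  intro g F _ _ m₀ hm₀ hg
  obtain ⟨κ, hκ⟩ := h3 g F m₀ hm₀ hg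
  refine ⟨κ, fun L _ _ _ f θ B N W S C 𝔮 h P hκW hS hCS hc hsq hHt hBN hcon α hα hN hns hev hevC hsq1 => ?_⟩
  have hcg := cg_con hS hcon
  have hSq : ∀ q ∈ C, ∀ 𝔓 : HeightOneSpectrum (𝓞 L), Ov (𝔮 q) 𝔓 → Sq1 𝔓 α := by
    intro q hq
    exact h4 g W F L f θ S 𝔮 h P hg hc hsq hS q (hCS hq) (hcg q (hCS hq)) α hα hN
      (fun 𝔓 h𝔓 _ => hevC q hq 𝔓 h𝔓) (fun 𝔓 h𝔓 hv => hsq1 q hq 𝔓 h𝔓 hv)
  obtain ⟨Λ, hΛ, hL⟩ := h1 g F L f θ hc hsq m₀ α hm₀ hα hev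
  refine hκ L f θ B N W S C 𝔮 h P hκW hS hCS hc hHt hBN hcon α Λ hα hN hL ?_ hns
  intro q hq
  obtain ⟨hb, hs⟩ := sep_q hg hS (hCS hq) (hcg q (hCS hq))
  exact h2 g F L f θ hc hsq m₀ α Λ hα hΛ hL (𝔮 q) (hS q (hCS hq)).2.2.2.2.2.1 hb hs (hSq q hq)

end Run7.h824.SR
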