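import Pool.Agent.Run7.h245.SR.Iface1
import Pool.Agent.N169.PF.Typ

/-!
# Project SR (helper245), piece TYPR (helper824): the type of a lattice with a larger dual (adapted from
`N169/PF/Typ.lean`)
-/

set_option autoImplicit false
set_option linter.all false

open Polynomial IsDedekindDomain Matrix NumberField
open scoped Classical

namespace Run7.h824.SR

open Pool.Agent.N352.PJ (Mt Typ)
open Pool.Agent.N783.PF
open Pool.Agent.Run7.h245.SR
open Pool.Agent.N169.PF (det_zero top_last gram_ne exists_conj)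

/-- **TYPR.** -/
theorem typr (h1 : S_REDR) (h2 : S_MAJ) : S_TYPR := by
  intro g F _ _ m₀ hm₀
  obtain ⟨C₀, hC₀⟩ := h1 g F m₀ hm₀
  obtain ⟨C₁, hC₁⟩ : ∃ C₁ : ℝ, C₁ = max (C₀ : ℝ) 1 := ⟨_, rfl⟩
  have hC1 : 1 ≤ C₁ := by rw [hC₁]; exact le_max_right _ _
  have hC01 : (C₀ : ℝ) ≤ C₁ := by rw [hC₁]; exact le_max_left _ _
  obtain ⟨C, hC⟩ := pow_unbounded_of_one_lt (C₁ ^ 2) (by norm_num : (1 : ℝ) < 4)
  refine ⟨C + 1, fun hg B L _ _ _ f θ hG α Λ hHt hα hLat => ?_⟩
  obtain ⟨e, heΛ, he, hmono, hprod⟩ := hC₀ L f θ hG α Λ hα hLat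
  obtain ⟨l, hl⟩ : ∃ l : Fin (2 * g + 1) → ℝ, l = fun i => HH f θ α (e i) := ⟨_, rfl⟩
  have hli : ∀ i, HH f θ α (e i) = l i := by
    intro i
    rw [hl]
  simp only [hli] at hprod hmono
  have hmono' : ∀ i j, i ≤ j → l i ≤ l j := fun i j hij => hmono hij
  have hl0 : ∀ i, 0 ≤ l i := by
    intro i
    rw [← hli, HH]
    positivity
  have hge : ∀ i, 1 ≤ l i * l (Fin.rev i) := by
    intro i
    by_contra hlt
    push Not at hlt
    apply gram_ne hG hα he
    refine det_zero _ i fun a ha b hb => ?_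
    show hG.top (e a * e b / α) = 0
    by_contra hne
    obtain ⟨σ, hσ⟩ := exists_conj hne (hLat.int _ (heΛ a) _ (heΛ b))
    have h3 := (h2 g B F L f θ hg hG hHt).1 α hα σ 0 (e a) (e b)
    rw [pow_zero, one_mul, mul_zero, pow_zero, one_mul, hli, hli] at h3
    have h4 : l a * l b ≤ l i * l (Fin.rev i) :=
      mul_le_mul (hmono' a i ha) (hmono' b _ hb) (hl0 b) (hl0 i)
    have h5 : (1 : ℝ) ≤ ‖σ (hG.top (e a * e b / α))‖ ^ 2 := one_le_pow₀ hσ
    linarith
  have hle : ∀ i, l i * l (Fin.rev i) ≤ C₁ ^ 2 := by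
    intro i
    have h1 : ∏ j, l j * l (Fin.rev j) = (∏ j, l j) ^ 2 := by
      rw [Finset.prod_mul_distrib, sq]
      congr 1
      exact Fintype.prod_equiv Fin.revPerm _ _ fun j => rfl
    have h2 : l i * l (Fin.rev i) ≤ ∏ j, l j * l (Fin.rev j) := by
      rw [← Finset.mul_prod_erase Finset.univ _ (Finset.mem_univ i)]
      have h3 : 1 ≤ ∏ j ∈ Finset.univ.erase i, l j * l (Fin.rev j) := by
        calc (1 : ℝ) = ∏ _j ∈ Finset.univ.erase i, (1 : ℝ) := by simp
          _ ≤ _ := Finset.prod_le_prod (fun _ _ => zero_le_one) fun j _ => hge j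
      nlinarith [hge i]
    rw [h1] at h2
    refine h2.trans ?_
    exact pow_le_pow_left₀ (Finset.prod_nonneg fun j _ => hl0 j) (hprod.trans hC01) 2
  have hpos : ∀ i, 0 < l i := by
    intro i
    rcases (hl0 i).lt_or_eq with h1 | h1
    · exact h1
    · have := hge i
      rw [← h1, zero_mul] at this
      linarith
  -- the type
  obtain ⟨m, hm⟩ : ∃ m : Fin (2 * g + 1) → ℤ, m = fun i => min 0 (Int.log 4 (l i)) := ⟨_, rfl⟩
  have hm0 : ∀ i, m i ≤ 0 := by
    intro i
    rw [hm]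
    exact min_le_left _ _
  have hmm : ∀ i j, i ≤ j → m i ≤ m j := by
    intro i j hij
    rw [hm]
    exact min_le_min le_rfl (Int.log_mono_right (hpos i) (hmono' i j hij))
  obtain ⟨w, hw⟩ : ∃ w : Fin (2 * g + 1) → ℤ, w = fun i : Fin (2 * g + 1) =>
    if (i : ℕ) < g then m i else if (i : ℕ) = g then 0 else - m (Fin.rev i) := ⟨_, rfl⟩
  have hw1 : ∀ i : Fin (2 * g + 1), (i : ℕ) < g → w i = m i := by
    intro i hi
    rw [hw]
    exact if_pos hi
  have hw2 : ∀ i : Fin (2 * g + 1), (i : ℕ) = g → w i = 0 := by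
    intro i hi
    rw [hw]
    show (if (i : ℕ) < g then m i else if (i : ℕ) = g then 0 else - m (Fin.rev i)) = 0
    rw [if_neg (by omega), if_pos hi]
  have hw3 : ∀ i : Fin (2 * g + 1), g < (i : ℕ) → w i = - m (Fin.rev i) := by
    intro i hi
    rw [hw]
    show (if (i : ℕ) < g then m i else if (i : ℕ) = g then 0 else - m (Fin.rev i)) = _
    rw [if_neg (by omega), if_neg (by omega)]
  have hrev : ∀ i : Fin (2 * g + 1), ((Fin.rev i : Fin (2 * g + 1)) : ℕ) = 2 * g - i := by
    intro i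
    rw [Fin.val_rev]
    omega
  have h4 : (1 : ℝ) ≤ 4 := by norm_num
  have h40 : (0 : ℝ) < 4 := by norm_num
  have hlog1 : ∀ i, (4 : ℝ) ^ (Int.log 4 (l i)) ≤ l i := by
    intro i
    have := Int.zpow_log_le_self (b := 4) (by norm_num) (hpos i)
    exact_mod_cast this
  have hlog2 : ∀ i, l i < (4 : ℝ) ^ (Int.log 4 (l i) + 1) := by
    intro i
    have := Int.lt_zpow_succ_log_self (b := 4) (by norm_num) (l i)
    exact_mod_cast this
  refine ⟨e, w, heΛ, he, ⟨?_, ?_⟩, ?_⟩
  · intro i j hij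
    have hij' : (i : ℕ) ≤ j := hij
    rcases lt_trichotomy (i : ℕ) g with hi | hi | hi
    · rw [hw1 i hi]
      rcases lt_trichotomy (j : ℕ) g with hj | hj | hj
      · rw [hw1 j hj]
        exact hmm i j hij
      · rw [hw2 j hj]
        exact hm0 i
      · rw [hw3 j hj]
        have h1 := hm0 i
        have h2 := hm0 (Fin.rev j)
        omega
    · rw [hw2 i hi]
      rcases lt_trichotomy (j : ℕ) g with hj | hj | hj
      · omega
      · rw [hw2 j hj]
      · rw [hw3 j hj]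
        have h2 := hm0 (Fin.rev j)
        omega
    · rw [hw3 i hi, hw3 j (by omega)]
      have := hmm (Fin.rev j) (Fin.rev i) (Fin.rev_le_rev.2 hij)
      omega
  · intro i
    rcases lt_trichotomy (i : ℕ) g with hi | hi | hi
    · rw [hw1 i hi, hw3 (Fin.rev i) (by rw [hrev]; omega), Fin.rev_rev]
    · rw [hw2 i hi, hw2 (Fin.rev i) (by rw [hrev]; omega), neg_zero]
    · rw [hw3 i hi, hw1 (Fin.rev i) (by rw [hrev]; omega), neg_neg]
  · intro i
    rw [hli]
    have hself : ∀ i : Fin (2 * g + 1), i ≤ Fin.rev i → 1 ≤ l i → l i ≤ (4 : ℝ) ^ C := by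
      intro i hi h1
      have h2 := hmono' i _ hi
      have h3 : l i * l i ≤ l i * l (Fin.rev i) := mul_le_mul_of_nonneg_left h2 (hl0 i)
      have h5 := hle i
      nlinarith
    have hCC : (4 : ℝ) ^ C ≤ (4 : ℝ) ^ (((C + 1 : ℕ) : ℤ) + 0) := by
      rw [add_zero, zpow_natCast]
      exact pow_le_pow_right₀ h4 (by omega)
    rcases lt_trichotomy (i : ℕ) g with hi | hi | hi
    · rw [hw1 i hi]
      have hir : i ≤ Fin.rev i := by
        rw [Fin.le_def, hrev]
        omega
      rcases le_or_gt 0 (Int.log 4 (l i)) with h0 | h0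
      · have h1 : m i = 0 := by
          rw [hm]
          exact min_eq_left h0
        rw [h1]
        refine (hself i hir ?_).trans hCC
        have h2 : (4 : ℝ) ^ (0 : ℤ) ≤ (4 : ℝ) ^ (Int.log 4 (l i)) := zpow_le_zpow_right₀ h4 h0
        rw [zpow_zero] at h2
        exact h2.trans (hlog1 i)
      · have h1 : m i = Int.log 4 (l i) := by
          rw [hm]
          exact min_eq_right h0.le
        rw [h1]
        refine (hlog2 i).le.trans (zpow_le_zpow_right₀ h4 ?_)
        push_cast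
        omega
    · rw [hw2 i hi]
      have hir : Fin.rev i = i := by
        rw [Fin.ext_iff, hrev]
        omega
      rcases le_total 1 (l i) with h1 | h1
      · exact (hself i (by rw [hir]) h1).trans hCC
      · refine h1.trans ?_
        rw [add_zero, zpow_natCast]
        exact one_le_pow₀ h4
    · rw [hw3 i hi]
      obtain ⟨r, hr⟩ : ∃ r, r = Fin.rev i := ⟨_, rfl⟩
      rw [← hr]
      have h1 : (4 : ℝ) ^ (m r) ≤ l r := by
        refine le_trans (zpow_le_zpow_right₀ h4 ?_) (hlog1 r)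
        rw [hm]
        exact min_le_right _ _
      have h2 := hle i
      rw [← hr] at h2
      have h3 : 0 < (4 : ℝ) ^ (m r) := zpow_pos h40 _
      have h5 : l i * (4 : ℝ) ^ (m r) ≤ (4 : ℝ) ^ C := by
        have h6 : l i * (4 : ℝ) ^ (m r) ≤ l i * l r := mul_le_mul_of_nonneg_left h1 (hl0 i)
        linarith
      have h6 : (4 : ℝ) ^ (((C + 1 : ℕ) : ℤ) + - m r) = (4 : ℝ) ^ (C + 1) / (4 : ℝ) ^ (m r) := by
        rw [zpow_add₀ h40.ne', zpow_natCast, _root_.zpow_neg, div_eq_mul_inv]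
      rw [h6, le_div_iff₀ h3]
      refine h5.trans ?_
      exact pow_le_pow_right₀ h4 (by omega)

end Run7.h824.SR
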