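import Pool.Agent.Run7.h245.SR.Iface1
import Pool.Agent.N999.PF.Orb

/-!
# Project SR (helper245), piece ORBC (helper824): orbits of the unipotent group on pairs with a set of distinguished
primes (adapted from `N999/PF/Orb.lean`)
-/

set_option autoImplicit false
set_option linter.unusedSectionVars false

open Polynomial Matrix NumberField
open scoped Classical

namespace Run7.h824.SR

open Pool.Agent.N783.PF
open Pool.Agent.Run7.h245.SR
open Pool.Agent.N783.PQ (chp form Dist eU)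
open Pool.Agent.N352.PJ (Mt Typ)
open Pool.Agent.N530.PQ (op_act chp_act symm_act form_act Ix mem_ix)
open Pool.Agent.N999.PF (dist_act tr_act map_act map_unit bd_mono Uni mat mat_uni mat_inj card_par free Par)

section count

variable {F : Type} [Field F] [NumberField F] {g : ℕ}

theorem X_act {κ : ℕ} (hκ : (2 * g + 1) ^ 2 ≤ 2 ^ κ) {c : ℕ} {S Cs : Finset ℕ}
    {𝔮 : ℕ → Ideal (𝓞 F)} {P : ℕ → (𝓞 F)[X]} {N : ℕ}
    {w : Fin (2 * g + 1) → ℤ} {A B U : Mt g (𝓞 F)} (hX : XsetC g N c w S Cs 𝔮 P A B) (hU : Uni w U) :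
    XsetC g (N + κ) (c + κ) w S Cs 𝔮 P (Uᵀ * A * U) (Uᵀ * B * U) where
  box := {
    sA := symm_act hX.box.sA
    sB := symm_act hX.box.sB
    det := by
      obtain ⟨x, h1, h2, h3⟩ := hX.box.det
      refine ⟨x, h1, ?_, h3.trans (Nat.pow_le_pow_right (by norm_num) (Nat.le_add_right _ _))⟩
      rw [Matrix.det_mul, Matrix.det_mul, Matrix.det_transpose, hU.det, one_mul, mul_one]
      exact h2
    tr := by rw [tr_act hU.det]; exact hX.box.tr
    bA := fun i j => by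
      refine bd_mono (hU.box hX.box.bA i j) ?_
      have h1 : (((2 * g + 1 : ℕ) : ℝ)) ^ 2 ≤ (2 : ℝ) ^ (κ : ℤ) := by
        rw [zpow_natCast]
        exact_mod_cast hκ
      have h2 : (2 : ℝ) ^ (((c + κ : ℕ) : ℤ) + w i + w j) =
          (2 : ℝ) ^ (κ : ℤ) * (2 : ℝ) ^ ((c : ℤ) + w i + w j) := by
        rw [← zpow_add₀ (by norm_num : (2 : ℝ) ≠ 0)]
        congr 1
        push_cast
        ring
      rw [h2]
      exact mul_le_mul_of_nonneg_right h1 (by positivity)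
    bB := fun i j => by
      refine bd_mono (hU.box hX.box.bB i j) ?_
      have h1 : (((2 * g + 1 : ℕ) : ℝ)) ^ 2 ≤ (2 : ℝ) ^ (2 * (κ : ℤ)) := by
        have h3 : (((2 * g + 1 : ℕ) : ℝ)) ^ 2 ≤ (2 : ℝ) ^ (κ : ℤ) := by
          rw [zpow_natCast]
          exact_mod_cast hκ
        refine h3.trans (zpow_le_zpow_right₀ (by norm_num) ?_)
        omega
      have h2 : (2 : ℝ) ^ (2 * ((N + κ : ℕ) : ℤ) + w i + w j) =
          (2 : ℝ) ^ (2 * (κ : ℤ)) * (2 : ℝ) ^ (2 * (N : ℤ) + w i + w j) := by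
        rw [← zpow_add₀ (by norm_num : (2 : ℝ) ≠ 0)]
        congr 1
        push_cast
        ring
      rw [h2]
      exact mul_le_mul_of_nonneg_right h1 (by positivity) }
  con := fun q hq 𝔭 h1 h2 => by
    have h3 := hX.con q hq 𝔭 h1 h2
    rw [← h3, rm, rm, map_act, map_act, chp_act (map_unit _ hU.det)]
  dist := fun q hq => by
    rw [rm, rm, map_act, map_act]
    exact dist_act (map_unit _ hU.det) (hX.dist q hq)

end count

/-- **ORBC** -/
theorem orbc (hP : S_PTS) : S_ORBC := by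
  intro F _ _ g
  obtain ⟨-, C0, hC0, hC, -⟩ := hP F
  refine ⟨2 * (2 * g + 1), ⌈C0⌉₊ ^ Fintype.card (Ix g), ?_⟩
  intro c S Cs 𝔮 P N w hw hfin
  have hcard := card_par (F := F) (C := ⌈C0⌉₊) (fun R hR => (hC R hR).2.trans
    (mul_le_mul_of_nonneg_right (Nat.le_ceil C0) (Nat.cast_nonneg _))) hw
  have hκ : (2 * g + 1) ^ 2 ≤ 2 ^ (2 * (2 * g + 1)) := by
    rw [mul_comm 2 (2 * g + 1), pow_mul]
    exact Nat.pow_le_pow_left (Nat.lt_two_pow_self).le 2
  obtain ⟨κ, hκe⟩ : ∃ κ, κ = 2 * (2 * g + 1) := ⟨_, rfl⟩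
  rw [← hκe] at hκ hfin ⊢
  have hfin' : Finite {p : Mt g (𝓞 F) × Mt g (𝓞 F) |
    XsetC g (N + κ) (c + κ) w S Cs 𝔮 P p.1 p.2} := hfin.to_subtype
  refine (Nat.mul_le_mul_left _ hcard).trans ?_
  rw [Nat.mul_left_comm]
  refine Nat.mul_le_mul_left _ ?_
  rw [← Nat.card_coe_set_eq, ← Nat.card_prod, ← Nat.card_coe_set_eq]
  have hch : ∀ f : {f : (𝓞 F)[X] | Irreducible (fF f) ∧
      ∃ A B : Mt g (𝓞 F), XsetC g N c w S Cs 𝔮 P A B ∧ chp (mF A) (mF B) = fF f},
      ∃ A B : Mt g (𝓞 F), XsetC g N c w S Cs 𝔮 P A B ∧ chp (mF A) (mF B) = fF f.1 := fun f => f.2.2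
  choose A B hB1 hB2 using hch
  refine Nat.card_le_card_of_injective
    (fun z => (⟨((mat z.2)ᵀ * A z.1 * mat z.2, (mat z.2)ᵀ * B z.1 * mat z.2),
      X_act hκ (hB1 z.1) (mat_uni z.2)⟩ :
      {p : Mt g (𝓞 F) × Mt g (𝓞 F) | XsetC g (N + κ) (c + κ) w S Cs 𝔮 P p.1 p.2})) ?_
  rintro ⟨f, u⟩ ⟨f', u'⟩ he
  have h0 : ((mat u)ᵀ * A f * mat u, (mat u)ᵀ * B f * mat u) =
      ((mat u')ᵀ * A f' * mat u', (mat u')ᵀ * B f' * mat u') := congrArg Subtype.val he
  have h4 : (mat u)ᵀ * A f * mat u = (mat u')ᵀ * A f' * mat u' := congrArg Prod.fst h0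
  have h5 : (mat u)ᵀ * B f * mat u = (mat u')ᵀ * B f' * mat u' := congrArg Prod.snd h0
  have h6 : f = f' := by
    apply Subtype.ext
    apply Polynomial.map_injective (algebraMap (𝓞 F) F) RingOfIntegers.coe_injective
    have e1 := hB2 f
    have e2 := hB2 f'
    rw [← chp_act (A := mF (A f)) (B := mF (B f)) (map_unit (algebraMap (𝓞 F) F) (mat_uni u).det),
      ← map_act, ← map_act, h4, h5, map_act, map_act,
      chp_act (map_unit (algebraMap (𝓞 F) F) (mat_uni u').det), e2] at e1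
    exact e1.symm
  subst h6
  have h7 := free (A := A f) (B := B f) (by rw [hB2 f]; exact f.2.1) (mat_uni u)
    (mat_uni u') h4 h5
  rw [mat_inj h7]

end Run7.h824.SR
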