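import Pool.Agent.Run7.h245.SR.Locc
import Pool.Agent.N426.PF.Par
import Pool.Agent.N31.PF.Int
import Pool.Agent.N771.PF.Core

/-!
# Project SR (helper245), piece RAMQ (helper824): the place `𝔮 q` dividing `D`
-/

set_option autoImplicit false
set_option linter.all false

open Polynomial IsDedekindDomain Matrix NumberField WithZero
open scoped Classical

namespace Run7.h824.SR

open Pool.Agent.N874.PP (Ev Sq1 U0)
open Pool.Agent.N874.PM (PLoc)
open Pool.Agent.N783.PF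
open Pool.Agent.Run7.h245.SR
open Pool.Agent.N771.PF (sep_q)
open Pool.Agent.N426.PF (toG setup exists_den_p exists_res)

section

variable {L : Type} [Field L] [NumberField L] {𝔓 : HeightOneSpectrum (𝓞 L)}

theorem sq1_val {a s : L} (h : 𝔓.valuation L (a - s ^ 2) < 𝔓.valuation L a) :
    𝔓.valuation L (s ^ 2) = 𝔓.valuation L a := by
  have e : s ^ 2 = a - (a - s ^ 2) := by ring
  rw [e]
  exact Valuation.map_sub_eq_of_lt_left _ h

theorem sq1_mul' {a b : L} (ha : Sq1 𝔓 a) (hb : Sq1 𝔓 b) : Sq1 𝔓 (a * b) := by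
  obtain ⟨s, hs⟩ := ha
  obtain ⟨t, ht⟩ := hb
  have e1 := sq1_val hs
  have e2 := sq1_val ht
  have ha0 : 0 < 𝔓.valuation L a := lt_of_le_of_lt zero_le' hs
  have hb0 : 0 < 𝔓.valuation L b := lt_of_le_of_lt zero_le' ht
  refine ⟨s * t, ?_⟩
  have e : a * b - (s * t) ^ 2 = (a - s ^ 2) * b + s ^ 2 * (b - t ^ 2) := by ring
  rw [e]
  refine Valuation.map_add_lt _ ?_ ?_
  · rw [map_mul, map_mul]
    exact mul_lt_mul_of_pos_right hs hb0
  · rw [map_mul, map_mul, e1]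
    exact mul_lt_mul_of_pos_left ht ha0

theorem sq1_near {a b : L} (ha : Sq1 𝔓 a) (h : 𝔓.valuation L (b - a) < 𝔓.valuation L a) : Sq1 𝔓 b := by
  obtain ⟨s, hs⟩ := ha
  have e0 : 𝔓.valuation L b = 𝔓.valuation L a := by
    have e : b = (b - a) + a := by ring
    rw [e]
    exact Valuation.map_add_eq_of_lt_right _ h
  refine ⟨s, ?_⟩
  rw [e0]
  have e : b - s ^ 2 = (b - a) + (a - s ^ 2) := by ring
  rw [e]
  exact Valuation.map_add_lt _ h hs

theorem lt_one_le {x : ℤᵐ⁰} (h : x < 1) : x ≤ WithZero.exp (-1 : ℤ) := by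
  have h1 : (1 : ℤᵐ⁰) = WithZero.exp (-1 : ℤ) * WithZero.exp 1 := by
    rw [← WithZero.exp_add]
    simp
  rw [h1] at h
  exact (WithZero.lt_mul_exp_iff_le WithZero.exp_ne_zero).1 h

end

section

variable {F L : Type} [Field F] [NumberField F] [Field L] [NumberField L] [Algebra F L]

theorem alg_eq (a : 𝓞 F) : algebraMap F L (a : F) = algebraMap (𝓞 L) L (algebraMap (𝓞 F) (𝓞 L) a) := by
  rw [← IsScalarTower.algebraMap_apply (𝓞 F) (𝓞 L) L, IsScalarTower.algebraMap_apply (𝓞 F) F L]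

theorem val_lt' {w : HeightOneSpectrum (𝓞 F)} {𝔓 : HeightOneSpectrum (𝓞 L)} (h : Ov w.asIdeal 𝔓)
    {a : 𝓞 F} (ha : a ∈ w.asIdeal) : 𝔓.valuation L (algebraMap F L (a : F)) < 1 := by
  rw [alg_eq]
  exact (HeightOneSpectrum.valuation_lt_one_iff_mem (K := L) 𝔓 _).2 (h a ha)

theorem val_le' (𝔓 : HeightOneSpectrum (𝓞 L)) (a : 𝓞 F) : 𝔓.valuation L (algebraMap F L (a : F)) ≤ 1 := by
  rw [alg_eq]
  exact HeightOneSpectrum.valuation_le_one (K := L) 𝔓 _

theorem val_eq' {w : HeightOneSpectrum (𝓞 F)} {𝔓 : HeightOneSpectrum (𝓞 L)} (h : Ov w.asIdeal 𝔓)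
    {a : 𝓞 F} (ha : a ∉ w.asIdeal) : 𝔓.valuation L (algebraMap F L (a : F)) = 1 := by
  refine le_antisymm (val_le' 𝔓 a) (not_lt.1 fun hlt => ?_)
  rw [alg_eq] at hlt
  have h1 := (HeightOneSpectrum.valuation_lt_one_iff_mem (K := L) 𝔓 _).1 hlt
  obtain ⟨y, i, hi, hy⟩ := w.isMaximal.exists_inv ha
  apply 𝔓.isPrime.ne_top
  rw [Ideal.eq_top_iff_one]
  have h2 := congrArg (algebraMap (𝓞 F) (𝓞 L)) hy
  rw [map_add, map_mul, map_one] at h2
  rw [← h2]
  exact Ideal.add_mem _ (Ideal.mul_mem_left _ _ h1) (h i hi)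

/-- the residue field of the prime at which `θ` is not a unit -/
theorem exists_c {g : ℕ} {f : (𝓞 F)[X]} {θ : L} (hG : IsGen g f θ) (hsq : SqF g f)
    (w : HeightOneSpectrum (𝓞 F)) (𝔓₁ 𝔔 : HeightOneSpectrum (𝓞 L)) (ho1 : Ov w.asIdeal 𝔓₁)
    (ho2 : Ov w.asIdeal 𝔔) (huniq : ∀ 𝔓 : HeightOneSpectrum (𝓞 L), Ov w.asIdeal 𝔓 → 𝔓 = 𝔓₁ ∨ 𝔓 = 𝔔)
    (hne : 𝔓₁ ≠ 𝔔) (hv : 𝔓₁.valuation L θ < 1) {β : L} (hβ : 𝔓₁.valuation L β = 1) :
    ∃ c : F, 𝔓₁.valuation L (β - algebraMap F L c) < 1 ∧ 𝔔.valuation L (algebraMap F L c) ≤ 1 := by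
  obtain ⟨t, b, ht, hb⟩ := setup Pool.Agent.N31.PF.int hG hsq
  have hβ0 : β ≠ 0 := by
    rintro rfl
    rw [map_zero] at hβ
    exact zero_ne_one hβ
  -- an element close to `1` at `𝔓₁` and to `0` at `𝔔`
  have hco : 𝔔.asIdeal ⊔ 𝔓₁.asIdeal = ⊤ := by
    have h1 : 𝔔.asIdeal ≠ 𝔓₁.asIdeal := fun h => hne (HeightOneSpectrum.ext h.symm)
    exact Ideal.isCoprime_iff_sup_eq.1
      (@Ideal.isCoprime_of_isMaximal _ _ _ _ 𝔔.isMaximal 𝔓₁.isMaximal h1)
  rw [Ideal.eq_top_iff_one] at hco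
  obtain ⟨p₀, hp₀, p₁, hp₁, hpp⟩ := Submodule.mem_sup.1 hco
  have vp0 : 𝔔.valuation L (algebraMap (𝓞 L) L p₀) ≤ WithZero.exp (-1 : ℤ) :=
    lt_one_le ((HeightOneSpectrum.valuation_lt_one_iff_mem (K := L) 𝔔 _).2 hp₀)
  obtain ⟨n, hn⟩ : ∃ n : ℕ, 𝔔.valuation L (β * algebraMap (𝓞 L) L p₀ ^ n) ≤ 1 := by
    have hv0 : 𝔔.valuation L β ≠ 0 := (Valuation.ne_zero_iff _).2 hβ0
    refine ⟨(WithZero.log (𝔔.valuation L β)).toNat, ?_⟩
    rw [map_mul, map_pow]
    have h1 : 𝔔.valuation L (algebraMap (𝓞 L) L p₀) ^ (WithZero.log (𝔔.valuation L β)).toNat ≤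
        WithZero.exp (-1 : ℤ) ^ (WithZero.log (𝔔.valuation L β)).toNat :=
      pow_le_pow_left₀ zero_le' vp0 _
    have h2 : 𝔔.valuation L β ≤ WithZero.exp ((WithZero.log (𝔔.valuation L β)).toNat : ℤ) := by
      conv_lhs => rw [← WithZero.exp_log hv0]
      rw [WithZero.exp_le_exp]
      exact Int.self_le_toNat _
    calc 𝔔.valuation L β * 𝔔.valuation L (algebraMap (𝓞 L) L p₀) ^ (WithZero.log (𝔔.valuation L β)).toNat
        ≤ WithZero.exp ((WithZero.log (𝔔.valuation L β)).toNat : ℤ) *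
          WithZero.exp (-1 : ℤ) ^ (WithZero.log (𝔔.valuation L β)).toNat := mul_le_mul' h2 h1
      _ = 1 := by
          rw [← WithZero.exp_nsmul, ← WithZero.exp_add, ← WithZero.exp_zero]
          congr 1
          simp
  obtain ⟨β', hβ'⟩ : ∃ β', β' = β * algebraMap (𝓞 L) L p₀ ^ n := ⟨_, rfl⟩
  rw [← hβ'] at hn
  have hpd : p₀ ^ n - 1 ∈ 𝔓₁.asIdeal := by
    have h1 : p₀ - 1 ∈ 𝔓₁.asIdeal := by
      have e : p₀ - 1 = -p₁ := by rw [← hpp]; ring
      rw [e]
      exact neg_mem hp₁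
    have h2 := sub_dvd_pow_sub_pow p₀ 1 n
    rw [one_pow] at h2
    exact Ideal.mem_of_dvd _ h2 h1
  have hdiff : 𝔓₁.valuation L (β - β') < 1 := by
    have e : β - β' = -(β * algebraMap (𝓞 L) L (p₀ ^ n - 1)) := by
      rw [hβ', map_sub, map_pow, map_one]; ring
    rw [e, Valuation.map_neg, map_mul, hβ, one_mul]
    exact (HeightOneSpectrum.valuation_lt_one_iff_mem (K := L) 𝔓₁ _).2 hpd
  have hβ1 : 𝔓₁.valuation L β' = 1 := by
    have e : β' = β - (β - β') := by ring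
    rw [e, Valuation.map_sub_eq_of_lt_left _ (by rw [hβ]; exact hdiff), hβ]
  obtain ⟨c₁, z, hc₁, hz⟩ := exists_den_p (K := F) (toG hG) ht w.isPrime w.ne_bot β' (by
    intro 𝔓 hO
    rcases huniq 𝔓 hO with h | h
    · rw [h, hβ1]
    · rw [h]; exact hn)
  have htm : t - algebraMap (𝓞 F) (𝓞 L) 0 ∈ 𝔓₁.asIdeal := by
    rw [map_zero, sub_zero]
    apply (HeightOneSpectrum.valuation_lt_one_iff_mem (K := L) 𝔓₁ _).1
    show 𝔓₁.valuation L (algebraMap (𝓞 L) L t) < 1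
    rw [ht]
    exact hv
  obtain ⟨r, hr⟩ := exists_res b hb htm z
  have vc1 := val_eq' ho1 hc₁
  have vc2 := val_eq' ho2 hc₁
  have hc0 : algebraMap F L (c₁ : F) ≠ 0 := by
    intro h0
    rw [h0, map_zero] at vc1
    exact zero_ne_one vc1
  refine ⟨(r : F) / (c₁ : F), ?_, ?_⟩
  · have e1 : β' - algebraMap F L ((r : F) / (c₁ : F)) =
        (algebraMap (𝓞 L) L (z - algebraMap (𝓞 F) (𝓞 L) r)) / algebraMap F L (c₁ : F) := by
      rw [map_div₀, map_sub, ← hz, ← alg_eq, IsScalarTower.algebraMap_apply (𝓞 F) F L]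
      field_simp
    have e2 : 𝔓₁.valuation L (β' - algebraMap F L ((r : F) / (c₁ : F))) < 1 := by
      rw [e1, map_div₀, vc1, div_one]
      exact (HeightOneSpectrum.valuation_lt_one_iff_mem (K := L) 𝔓₁ _).2 hr
    have e3 : β - algebraMap F L ((r : F) / (c₁ : F)) =
        (β - β') + (β' - algebraMap F L ((r : F) / (c₁ : F))) := by ring
    rw [e3]
    exact Valuation.map_add_lt _ hdiff e2
  · rw [map_div₀, map_div₀, vc2, div_one]
    exact val_le' 𝔔 r

/-- Substitution in the divisibility. -/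
theorem comp_dvd {M E : Type} [Field M] [Field E] [Algebra M E] {A B : M} {D : ℕ} (hD : (D : M) ≠ 0)
    {h : M[X]} {s : E[X]} (H : (cb A B).map (algebraMap M E) ∣ h.map (algebraMap M E) - s ^ 2) :
    X ^ 3 + C (algebraMap M E (A * (D : M) ^ 2)) * X + C (algebraMap M E (B * (D : M) ^ 3)) ∣
      (h.comp (C ((D : M)⁻¹) * X)).map (algebraMap M E) - (s.comp (C ((D : E)⁻¹) * X)) ^ 2 := by
  obtain ⟨t, ht⟩ := H
  have hDE : (D : E) ≠ 0 := by
    have := (map_ne_zero (algebraMap M E)).2 hD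
    rwa [map_natCast] at this
  refine ⟨C (((D : E)⁻¹) ^ 3) * t.comp (C ((D : E)⁻¹) * X), ?_⟩
  have e1 : (h.comp (C ((D : M)⁻¹) * X)).map (algebraMap M E) =
      (h.map (algebraMap M E)).comp (C ((D : E)⁻¹) * X) := by
    rw [Polynomial.map_comp, Polynomial.map_mul, Polynomial.map_X, Polynomial.map_C, map_inv₀,
      map_natCast]
  rw [e1]
  have e2 : ((h.map (algebraMap M E)).comp (C ((D : E)⁻¹) * X) - (s.comp (C ((D : E)⁻¹) * X)) ^ 2) =
      (h.map (algebraMap M E) - s ^ 2).comp (C ((D : E)⁻¹) * X) := by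
    rw [sub_comp, pow_comp]
  rw [e2, ht, mul_comp, cb_map]
  have e3 : (cb (algebraMap M E A) (algebraMap M E B)).comp (C ((D : E)⁻¹) * X) =
      (X ^ 3 + C (algebraMap M E (A * (D : M) ^ 2)) * X + C (algebraMap M E (B * (D : M) ^ 3))) *
        C (((D : E)⁻¹) ^ 3) := by
    simp only [cb, add_comp, mul_comp, pow_comp, X_comp, C_comp, map_mul, map_pow, map_natCast]
    have hC : (C ((D : E)⁻¹) : E[X]) * (D : E[X]) = 1 := by
      rw [← map_natCast C D, ← C_mul, inv_mul_cancel₀ hDE, C_1]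
    linear_combination (-(C (algebraMap M E A) * (C ((D : E)⁻¹) * X)) *
      ((C ((D : E)⁻¹) : E[X]) * (D : E[X]) + 1) -
      C (algebraMap M E B) * (((C ((D : E)⁻¹) : E[X]) * (D : E[X])) ^ 2 +
        (C ((D : E)⁻¹) : E[X]) * (D : E[X]) + 1)) * hC
  rw [e3]
  ring

end

/-- **RAMQ** -/
theorem ramq (h1 : S_SQW) (h2 : S_PL) (h3 : S_EXQ) (h4 : S_CSQ) (h5 : S_NS) : S_RAMQ := by
  intro W F L _ _ _ _ _ f θ S 𝔮 r P hG hsq hc2 hS q hq hcg D D' hD hnd hD0 h₀ hne hnrm hev hu0 w hw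
  have hm := hG.mon
  have hd : f.natDegree = 3 := hG.deg
  have hirr := irr_of_gen hG
  have hDF : (D : F) ≠ 0 := Nat.cast_ne_zero.2 hD0
  obtain ⟨k1, k2, k3, k4⟩ := sq_iff hG hc2 hirr hD0
  have hcA := fF_cub hm hd hc2
  obtain ⟨hqp, -, -, hq8, -, hpr, hmem, hrm, hrd, hri, -⟩ := hS q hq
  obtain ⟨hbot, hsep⟩ := sep_q (g := 1) le_rfl hS hq hcg
  have nat_mem : ∀ p : ℕ, ¬ q ∣ p → (p : 𝓞 F) ∉ w.asIdeal := by
    intro p hp hpm
    rw [hw] at hpm
    have hco : Nat.Coprime p q := ((Nat.Prime.coprime_iff_not_dvd hqp).2 hp).symm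
    obtain ⟨u, v, huv⟩ := (Nat.isCoprime_iff_coprime.2 hco)
    apply hpr.ne_top
    rw [Ideal.eq_top_iff_one]
    have h9 : (1 : 𝓞 F) = (u : 𝓞 F) * (p : 𝓞 F) + (v : 𝓞 F) * (q : 𝓞 F) := by
      have := congrArg (Int.cast (R := 𝓞 F)) huv
      push_cast at this
      exact this.symm
    rw [h9]
    exact Ideal.add_mem _ (Ideal.mul_mem_left _ _ hpm) (Ideal.mul_mem_left _ _ hmem)
  have h2w : (2 : 𝓞 F) ∉ w.asIdeal := by
    have := nat_mem 2 (by
      intro h
      have := (Nat.prime_dvd_prime_iff_eq hqp Nat.prime_two).1 h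
      rw [this] at hq8
      norm_num at hq8)
    exact_mod_cast this
  by_cases hcase : ∀ 𝔓 : HeightOneSpectrum (𝓞 L), Ov (𝔮 q) 𝔓 → 𝔓.valuation L θ = 1 →
      Ev 𝔓 (aeval θ h₀)
  · -- the class is even
    have hs1 : ∀ 𝔓 : HeightOneSpectrum (𝓞 L), Ov (𝔮 q) 𝔓 → Sq1 𝔓 (aeval θ h₀) :=
      h5 1 W F L f θ S 𝔮 r P le_rfl hG hsq hS q hq hcg _ hne hnrm hev
        (fun 𝔓 hO hv => (hu0 𝔓 hO hv).1 (hcase 𝔓 hO hv))
    refine ploc_sq hDF ?_
    rw [← hcA]
    exact h1 1 F L f θ le_rfl hG w h2w (by rw [hw]; exact hsep) h₀ hne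
      (fun 𝔓 hO => hs1 𝔓 (by rw [← hw]; exact hO))
  · push Not at hcase
    obtain ⟨𝔔, hOQ, hvQ, hnev⟩ := hcase
    obtain ⟨𝔓₁, 𝔓₂, o1, o2, v1, v2, q1, q2, huniq⟩ :=
      h3 1 W F L f θ S 𝔮 r P le_rfl hG hsq hS q hq hcg
    have e2 : 𝔔 = 𝔓₂ := by
      rcases huniq 𝔔 hOQ with h | h
      · rw [h] at hvQ
        exact absurd hvQ v1.ne
      · exact h
    subst e2
    have hne12 : 𝔓₁ ≠ 𝔔 := by
      rintro rfl
      exact v1.ne v2
    rw [← hw] at o1 o2 hOQ
    obtain ⟨A, hA⟩ : ∃ A : 𝓞 F, A = f.coeff 1 := ⟨_, rfl⟩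
    obtain ⟨B, hB⟩ : ∃ B : 𝓞 F, B = f.coeff 0 := ⟨_, rfl⟩
    have hBw : B ∈ w.asIdeal := by
      have := hcg 0
      rw [mul_coeff_zero, coeff_X_zero, zero_mul, sub_zero] at this
      rw [hB, hw]
      exact this
    have hAw : A ∉ w.asIdeal := by
      intro hAm
      have hj := hcg 1
      rw [show (1 : ℕ) = 0 + 1 from rfl, coeff_X_mul] at hj
      rw [hA, hw] at hAm
      have hr0 : (r q).coeff 0 ∈ 𝔮 q := by
        have := Ideal.sub_mem _ hAm hj
        simpa using this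
      haveI := hpr
      haveI hdom : IsDomain (𝓞 F ⧸ 𝔮 q) := Ideal.Quotient.isDomain (𝔮 q)
      have hX : X ∣ rd (𝔮 q) (r q) := by
        rw [X_dvd_iff, rd, coeff_map]
        exact Ideal.Quotient.eq_zero_iff_mem.2 hr0
      obtain ⟨s, hs⟩ := hX
      have hdeg : (rd (𝔮 q) (r q)).natDegree = 2 := by
        rw [rd, hrm.natDegree_map, hrd]
      rcases (hri.isUnit_or_isUnit hs) with hu | hu
      · exact not_isUnit_X hu
      · have hs0 : s ≠ 0 := hu.ne_zero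
        rw [hs, natDegree_X_mul hs0, natDegree_eq_zero_of_isUnit hu] at hdeg
        omega
    obtain ⟨u, i, hi, hui⟩ := w.isMaximal.exists_inv hAw
    obtain ⟨e, he⟩ : ∃ e : 𝓞 F, e = -(u * B) := ⟨_, rfl⟩
    have hew : e ∈ w.asIdeal := by
      rw [he]
      exact neg_mem (Ideal.mul_mem_left _ _ hBw)
    -- the images in `L`
    obtain ⟨α, hα⟩ : ∃ α, α = aeval θ h₀ := ⟨_, rfl⟩
    rw [← hα] at hne hnrm hnev
    have hevα := hev 𝔓₁ (by rw [← hw]; exact o1) v1
    have huα := hu0 𝔔 (by rw [← hw]; exact o2) v2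
    rw [← hα] at hevα huα
    obtain ⟨AL, hAL⟩ : ∃ AL : L, AL = algebraMap F L (A : F) := ⟨_, rfl⟩
    obtain ⟨BL, hBL⟩ : ∃ BL : L, BL = algebraMap F L (B : F) := ⟨_, rfl⟩
    obtain ⟨E, hE⟩ : ∃ E : L, E = algebraMap F L (e : F) := ⟨_, rfl⟩
    have hroot : θ ^ 3 + AL * θ + BL = 0 := by
      have h0 := hG.root
      rw [hcA] at h0
      simp only [cb, map_add, map_mul, map_pow, aeval_X, aeval_C] at h0
      rw [hAL, hBL, hA, hB]
      exact h0
    have vA := val_eq' o1 hAw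
    rw [← hAL] at vA
    have vE1 : 𝔓₁.valuation L E < 1 := by rw [hE]; exact val_lt' o1 hew
    have vE2 : 𝔔.valuation L E < 1 := by rw [hE]; exact val_lt' o2 hew
    -- Newton
    have hfe : E ^ 3 + AL * E + BL = (E - θ) * (E ^ 2 + E * θ + θ ^ 2 + AL) := by
      linear_combination hroot
    have vz : 𝔓₁.valuation L (E ^ 2 + E * θ + θ ^ 2 + AL) = 1 := by
      have h6 : 𝔓₁.valuation L (E ^ 2 + E * θ + θ ^ 2) < 1 := by
        refine Valuation.map_add_lt _ (Valuation.map_add_lt _ ?_ ?_) ?_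
        · rw [map_pow]; exact pow_lt_one₀ zero_le' vE1 two_ne_zero
        · rw [map_mul]; exact mul_lt_one_of_lt_of_le vE1 v1.le
        · rw [map_pow]; exact pow_lt_one₀ zero_le' v1 two_ne_zero
      rw [Valuation.map_add_eq_of_lt_right _ (by rw [vA]; exact h6), vA]
    have hexp : (WithZero.exp (-1 : ℤ) : ℤᵐ⁰) * WithZero.exp (-1 : ℤ) = WithZero.exp (-2 : ℤ) := by
      rw [← WithZero.exp_add]; norm_num
    have hexp1 : (WithZero.exp (-1 : ℤ) : ℤᵐ⁰) ≤ 1 := by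
      rw [← WithZero.exp_zero, WithZero.exp_le_exp]; norm_num
    have hexp1' : (WithZero.exp (-1 : ℤ) : ℤᵐ⁰) < 1 := by
      rw [← WithZero.exp_zero, WithZero.exp_lt_exp]; norm_num
    have hexp2 : (WithZero.exp (-2 : ℤ) : ℤᵐ⁰) < WithZero.exp (-1 : ℤ) := by
      rw [WithZero.exp_lt_exp]; norm_num
    have hpos1 : (0 : ℤᵐ⁰) < WithZero.exp (-1 : ℤ) := WithZero.exp_pos
    have hpos2 : (0 : ℤᵐ⁰) < WithZero.exp (-2 : ℤ) := WithZero.exp_pos
    have vfe : 𝔓₁.valuation L (E ^ 3 + AL * E + BL) ≤ WithZero.exp (-2 : ℤ) := by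
      have e3 : E ^ 3 + AL * E + BL = -((algebraMap F L (u : F)) * BL) ^ 3 +
          BL * algebraMap F L (i : F) := by
        have hui' : algebraMap F L (u : F) * AL + algebraMap F L (i : F) = 1 := by
          have h0 := congrArg (fun a : 𝓞 F => algebraMap F L (a : F)) hui
          simp only [map_add, map_mul, map_one] at h0
          rw [hAL]
          exact h0
        have hE' : E = -(algebraMap F L (u : F) * BL) := by
          rw [hE, he, hBL]
          simp only [map_neg, map_mul]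
        rw [hE']
        linear_combination (-BL) * hui'
      rw [e3]
      have vB : 𝔓₁.valuation L BL ≤ WithZero.exp (-1 : ℤ) := by
        rw [hBL]; exact lt_one_le (val_lt' o1 hBw)
      have vi : 𝔓₁.valuation L (algebraMap F L (i : F)) ≤ WithZero.exp (-1 : ℤ) :=
        lt_one_le (val_lt' o1 hi)
      have vuB : 𝔓₁.valuation L (algebraMap F L (u : F) * BL) ≤ WithZero.exp (-1 : ℤ) := by
        rw [map_mul]
        calc _ ≤ 1 * WithZero.exp (-1 : ℤ) := mul_le_mul' (val_le' 𝔓₁ u) vB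
          _ = _ := one_mul _
      refine Valuation.map_add_le _ ?_ ?_
      · rw [Valuation.map_neg, map_pow]
        calc _ = 𝔓₁.valuation L (algebraMap F L (u : F) * BL) * 𝔓₁.valuation L (algebraMap F L (u : F) * BL) *
              𝔓₁.valuation L (algebraMap F L (u : F) * BL) := by rw [pow_succ, pow_two]
          _ ≤ WithZero.exp (-1 : ℤ) * WithZero.exp (-1 : ℤ) * 1 :=
              mul_le_mul' (mul_le_mul' vuB vuB) (vuB.trans hexp1)
          _ = _ := by rw [mul_one, hexp]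
      · rw [map_mul, ← hexp]
        exact mul_le_mul' vB vi
    have vEθ : 𝔓₁.valuation L (E - θ) ≤ WithZero.exp (-2 : ℤ) := by
      rw [hfe, map_mul, vz, mul_one] at vfe
      exact vfe
    -- the constant
    obtain ⟨y, hy⟩ := hevα
    have hy0 : y ≠ 0 := by
      rintro rfl
      rw [map_zero, zero_pow two_ne_zero] at hy
      exact hne ((Valuation.zero_iff _).1 hy)
    have vy0 : 𝔓₁.valuation L y ≠ 0 := (Valuation.ne_zero_iff _).2 hy0
    obtain ⟨β, hβ⟩ : ∃ β, β = α / y ^ 2 := ⟨_, rfl⟩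
    have hαβ : α = β * y ^ 2 := by
      rw [hβ]
      field_simp
    have vβ : 𝔓₁.valuation L β = 1 := by
      rw [hβ, map_div₀, map_pow, hy, div_self (pow_ne_zero _ vy0)]
    obtain ⟨c, hc, hcQ⟩ := exists_c hG hsq w 𝔓₁ 𝔔 o1 o2 (fun 𝔓 hO => huniq 𝔓 (by rw [← hw]; exact hO))
      hne12 v1 vβ
    obtain ⟨cL, hcL⟩ : ∃ cL : L, cL = algebraMap F L c := ⟨_, rfl⟩
    rw [← hcL] at hc hcQ
    have vc : 𝔓₁.valuation L cL = 1 := by
      have e4 : cL = β - (β - cL) := by ring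
      rw [e4, Valuation.map_sub_eq_of_lt_left _ (by rw [vβ]; exact hc), vβ]
    -- the point
    obtain ⟨x, hx⟩ : ∃ x : F, x = (D : F) * (e : F) + c * (q : F) ^ 2 := ⟨_, rfl⟩
    obtain ⟨xL, hxL⟩ : ∃ xL : L, xL = algebraMap F L x := ⟨_, rfl⟩
    have hxe : xL = (D : L) * E + cL * (q : L) ^ 2 := by
      rw [hxL, hx, hcL, hE]
      simp only [map_add, map_mul, map_pow, map_natCast]
    have hDL : (D : L) = (q : L) * (D' : L) := by rw [hD]; push_cast; ring
    have vD'1 : 𝔓₁.valuation L (D' : L) = 1 := by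
      have := val_eq' o1 (nat_mem D' hnd)
      simpa using this
    have vD'2 : 𝔔.valuation L (D' : L) = 1 := by
      have := val_eq' o2 (nat_mem D' hnd)
      simpa using this
    have vD1 : 𝔓₁.valuation L (D : L) = WithZero.exp (-1 : ℤ) := by
      rw [hDL, map_mul, q1, vD'1, mul_one]
    have vD2 : 𝔔.valuation L (D : L) = WithZero.exp (-1 : ℤ) := by
      rw [hDL, map_mul, q2, vD'2, mul_one]
    have vcq : 𝔓₁.valuation L (cL * (q : L) ^ 2) = WithZero.exp (-2 : ℤ) := by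
      rw [map_mul, map_pow, vc, q1, one_mul, pow_two, hexp]
    have vDE : 𝔓₁.valuation L ((D : L) * (E - θ)) < WithZero.exp (-2 : ℤ) := by
      rw [map_mul, vD1]
      calc _ ≤ WithZero.exp (-1 : ℤ) * WithZero.exp (-2 : ℤ) := mul_le_mul' le_rfl vEθ
        _ < 1 * WithZero.exp (-2 : ℤ) := mul_lt_mul_of_pos_right hexp1' hpos2
        _ = _ := one_mul _
    have hxθ : xL - (D : L) * θ = (D : L) * (E - θ) + cL * (q : L) ^ 2 := by rw [hxe]; ring
    have vxθ : 𝔓₁.valuation L (xL - (D : L) * θ) = WithZero.exp (-2 : ℤ) := by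
      rw [hxθ, Valuation.map_add_eq_of_lt_right _ (by rw [vcq]; exact vDE), vcq]
    have hxθ0 : xL - (D : L) * θ ≠ 0 := by
      intro h0
      rw [h0, map_zero] at vxθ
      exact hpos2.ne vxθ
    have s1 : Sq1 𝔓₁ (α * (xL - (D : L) * θ)) := by
      refine ⟨y * cL * (q : L), ?_⟩
      rw [map_mul, hy, vxθ]
      have e5 : α * (xL - (D : L) * θ) - (y * cL * (q : L)) ^ 2 =
          y ^ 2 * (β * ((D : L) * (E - θ)) + (cL * (q : L) ^ 2) * (β - cL)) := by
        rw [hxθ, hαβ]; ring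
      rw [e5, map_mul, map_pow]
      refine mul_lt_mul_of_pos_left (Valuation.map_add_lt _ ?_ ?_) (pow_pos (zero_lt_iff.2 vy0) 2)
      · rw [map_mul, vβ, one_mul]
        exact vDE
      · rw [map_mul, vcq]
        calc _ < WithZero.exp (-2 : ℤ) * 1 := mul_lt_mul_of_pos_left hc hpos2
          _ = _ := mul_one _
    have s2 : Sq1 𝔔 (α * (xL - (D : L) * θ)) := by
      have t1 : Sq1 𝔔 (α * ((q : L) * θ)) := huα.2 hnev
      have t2 : Sq1 𝔔 (-(D' : L)) := by
        have := (h4 1 W F L f θ S 𝔮 r P le_rfl hG hsq hS q hq hcg 𝔔 (by rw [← hw]; exact o2) v2).1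
          (-(D' : 𝓞 F)) (by
            intro h
            rw [← hw] at h
            exact nat_mem D' hnd (by simpa using neg_mem h))
        simpa using this
      have t3 := sq1_mul' t1 t2
      refine sq1_near t3 ?_
      have e6 : α * (xL - (D : L) * θ) - α * ((q : L) * θ) * -(D' : L) = α * xL := by
        rw [hDL]; ring
      have e7 : α * ((q : L) * θ) * -(D' : L) = -(α * ((D : L) * θ)) := by rw [hDL]; ring
      have vα0 : 0 < 𝔔.valuation L α := zero_lt_iff.2 ((Valuation.ne_zero_iff _).2 hne)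
      rw [e6, e7, Valuation.map_neg, map_mul, map_mul _ α ((D : L) * θ)]
      refine mul_lt_mul_of_pos_left ?_ vα0
      rw [map_mul, vD2, v2, mul_one, hxe]
      refine Valuation.map_add_lt _ ?_ ?_
      · rw [map_mul, vD2]
        calc _ < WithZero.exp (-1 : ℤ) * 1 := mul_lt_mul_of_pos_left vE2 hpos1
          _ = _ := mul_one _
      · rw [map_mul, map_pow, q2, pow_two, hexp]
        calc _ ≤ 1 * WithZero.exp (-2 : ℤ) := mul_le_mul' hcQ le_rfl
          _ = WithZero.exp (-2 : ℤ) := one_mul _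
          _ < _ := hexp2
    -- the polynomial
    obtain ⟨h', hh'⟩ : ∃ h' : F[X], h' = h₀ * (C x - C (D : F) * X) := ⟨_, rfl⟩
    have hval : aeval θ h' = α * (xL - (D : L) * θ) := by
      rw [hh', hα, hxL]
      simp only [map_mul, map_sub, aeval_C, aeval_X, map_natCast]
    obtain ⟨s, hs⟩ := h1 1 F L f θ le_rfl hG w h2w (by rw [hw]; exact hsep) h'
      (by rw [hval]; exact mul_ne_zero hne hxθ0) (by
        intro 𝔓 hO
        rw [hval]
        rcases huniq 𝔓 (by rw [← hw]; exact hO) with h | h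
        · rw [h]; exact s1
        · rw [h]; exact s2)
    rw [hcA] at hs
    have hs' := comp_dvd (D := D) hDF hs
    have hcomp : (h'.comp (C ((D : F)⁻¹) * X)).map (algebraMap F (w.adicCompletion F)) =
        (C (algebraMap F (w.adicCompletion F) x) - X) *
          (h₀.comp (C ((D : F)⁻¹) * X)).map (algebraMap F (w.adicCompletion F)) := by
      have e8 : h'.comp (C ((D : F)⁻¹) * X) = (C x - X) * h₀.comp (C ((D : F)⁻¹) * X) := by
        rw [hh', mul_comp, sub_comp, C_comp, mul_comp, C_comp, X_comp, ← mul_assoc, ← C_mul,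
          mul_inv_cancel₀ hDF, C_1, one_mul, mul_comm]
      rw [e8, Polynomial.map_mul, Polynomial.map_sub, map_C, map_X]
    rw [hcomp] at hs'
    refine h2 F (w.adicCompletion F) _ _ _ (algebraMap F (w.adicCompletion F) x) _ ?_ ?_ ?_ hs'
    · -- coprime
      rw [isCoprime_comm, k1.coprime_iff_not_dvd]
      rintro ⟨t, ht⟩
      have hrt : aeval ((D : L) * θ) (cb (((f.coeff 1 : 𝓞 F) : F) * (D : F) ^ 2)
          (((f.coeff 0 : 𝓞 F) : F) * (D : F) ^ 3)) = 0 := by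
        simp only [cb, map_add, map_mul, map_pow, aeval_X, aeval_C, map_natCast]
        rw [← hA, ← hB, ← hAL, ← hBL]
        linear_combination ((D : L) ^ 3) * hroot
      have h7 := comp_aeval θ hD0 h₀
      rw [ht, map_mul, hrt, zero_mul, ← hα] at h7
      exact hne h7.symm
    · refine (k3 _).2 ?_
      rw [comp_aeval θ hD0, ← hα]
      exact hnrm
    · intro h0
      have h8 : x ^ 3 + ((f.coeff 1 : 𝓞 F) : F) * (D : F) ^ 2 * x +
          ((f.coeff 0 : 𝓞 F) : F) * (D : F) ^ 3 = 0 := by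
        apply (algebraMap F (w.adicCompletion F)).injective
        rw [map_zero, ← h0]
        simp only [map_add, map_mul, map_pow]
      have h9 : IsRoot (cb (((f.coeff 1 : 𝓞 F) : F) * (D : F) ^ 2)
          (((f.coeff 0 : 𝓞 F) : F) * (D : F) ^ 3)) x := by
        show eval x _ = 0
        simp only [cb, eval_add, eval_mul, eval_pow, eval_X, eval_C]
        exact h8
      have h10 := degree_eq_one_of_irreducible_of_root k1 h9
      have h11 : (cb (((f.coeff 1 : 𝓞 F) : F) * (D : F) ^ 2)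
          (((f.coeff 0 : 𝓞 F) : F) * (D : F) ^ 3)).natDegree = 3 := cb_natDegree _ _
      rw [natDegree_eq_of_degree_eq_some h10] at h11
      norm_num at h11

end Run7.h824.SR
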