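import Pool.Agent.Run7.h245.SR.Iface2
import Pool.Agent.N2.PQ.Cant

/-!
# Project SR (helper245), piece LP2 (helper824): over a field over which the cubic polynomial is irreducible the
Jacobian classes come from one point (Cantor reduction)
-/

set_option autoImplicit false

open Polynomial

namespace Run7.h824.SR

open Pool.Agent.Run7.h245.SR
open Pool.Agent.N783.PQ (LocIm)
open Pool.Agent.N874.PM (PLoc)
open Pool.Agent.N874.JM (LocF)

section

variable {E : Type} [Field E]

/-- one step of the reduction -/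
theorem red_step (f : E[X]) (hf : f.Monic) (hd : f.natDegree = 3) (hirr : Irreducible f)
    (u v : E[X]) (hu : u.Monic) (hn : 2 ≤ u.natDegree) (huv : u ∣ v ^ 2 - f) :
    ∃ u' v' r : E[X], u'.Monic ∧ u'.natDegree < u.natDegree ∧ IsCoprime u' f ∧ u' ∣ v' ^ 2 - f ∧
      f ∣ ((-1) ^ u.natDegree * u) * ((-1) ^ u'.natDegree * u') - r ^ 2 := by
  obtain ⟨w, hw⟩ : ∃ w, w = v %ₘ u := ⟨_, rfl⟩
  have hu1 : u ≠ 1 := by
    rintro rfl
    rw [natDegree_one] at hn
    omega
  have hwd : w.natDegree < u.natDegree := by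
    rw [hw]
    exact natDegree_modByMonic_lt v hu hu1
  have hdvd : u ∣ w ^ 2 - f := by
    have e : w = v - u * (v /ₘ u) := by rw [hw]; exact modByMonic_eq_sub_mul_div v u
    have e2 : w ^ 2 - f = (v ^ 2 - f) + u * (u * (v /ₘ u) ^ 2 - 2 * v * (v /ₘ u)) := by
      rw [e]; ring
    rw [e2]
    exact dvd_add huv (dvd_mul_right _ _)
  obtain ⟨u₂, hu₂⟩ := hdvd
  -- the degree and the leading coefficient
  have hA : (2 ≤ w.natDegree → (w ^ 2 - f).natDegree = 2 * w.natDegree ∧
      (w ^ 2 - f).leadingCoeff = w.leadingCoeff ^ 2) := by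
    intro h2
    have hlt : f.natDegree < (w ^ 2).natDegree := by rw [natDegree_pow, hd]; omega
    refine ⟨?_, ?_⟩
    · rw [natDegree_sub_eq_left_of_natDegree_lt hlt, natDegree_pow]
    · rw [leadingCoeff_sub_of_degree_lt (degree_lt_degree hlt), leadingCoeff_pow]
  have hB : (w.natDegree ≤ 1 → (w ^ 2 - f).natDegree = 3 ∧ (w ^ 2 - f).leadingCoeff = -1) := by
    intro h2
    have hlt : (w ^ 2).natDegree < f.natDegree := by rw [natDegree_pow, hd]; omega
    refine ⟨?_, ?_⟩
    · rw [natDegree_sub_eq_right_of_natDegree_lt hlt, hd]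
    · rw [leadingCoeff_sub_of_degree_lt' (degree_lt_degree hlt), hf.leadingCoeff]
  have hne : w ^ 2 - f ≠ 0 := by
    intro h0
    rcases le_or_gt w.natDegree 1 with h | h
    · have := (hB h).1
      rw [h0, natDegree_zero] at this
      omega
    · have := (hA h).1
      rw [h0, natDegree_zero] at this
      omega
  have hu₂0 : u₂ ≠ 0 := by
    rintro rfl
    rw [mul_zero] at hu₂
    exact hne hu₂
  have hdeg : (w ^ 2 - f).natDegree = u.natDegree + u₂.natDegree := by
    rw [hu₂, hu.natDegree_mul' hu₂0]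
  have hlc : (w ^ 2 - f).leadingCoeff = u₂.leadingCoeff := by
    rw [hu₂, leadingCoeff_monic_mul hu]
  obtain ⟨l, hl⟩ : ∃ l, l = u₂.leadingCoeff := ⟨_, rfl⟩
  have hl0 : l ≠ 0 := by rw [hl]; exact leadingCoeff_ne_zero.2 hu₂0
  have hCC : (C l : E[X]) * C l⁻¹ = 1 := by rw [← C_mul, mul_inv_cancel₀ hl0, C_1]
  by_cases hfu : f ∣ u₂
  · -- `f` divides the cofactor
    obtain ⟨c, hc⟩ := hfu
    have hfw : f ∣ w := by
      have h1 : f ∣ w ^ 2 := by
        have e : w ^ 2 = f * (1 + u * c) := by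
          have := hu₂
          rw [hc] at this
          linear_combination this
        rw [e]
        exact dvd_mul_right _ _
      exact hirr.prime.dvd_of_dvd_pow h1
    obtain ⟨d, hd'⟩ := hfw
    have hf0 : f ≠ 0 := hf.ne_zero
    have huc : u * c = f * d ^ 2 - 1 := by
      apply mul_left_cancel₀ hf0
      have := hu₂
      rw [hc, hd'] at this
      linear_combination -this
    have hd0 : d ≠ 0 := by
      rintro rfl
      have h1 : u ∣ 1 := ⟨-c, by linear_combination huc⟩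
      have h2 := natDegree_eq_zero_of_isUnit (isUnit_of_dvd_one h1)
      omega
    have hwn : w.natDegree = 3 + d.natDegree := by rw [hd', hf.natDegree_mul' hd0, hd]
    obtain ⟨h1, h2⟩ := hA (by omega)
    have hc0 : c ≠ 0 := by
      rintro rfl
      rw [mul_zero] at hc
      exact hu₂0 hc
    have hcd : u₂.natDegree = 3 + c.natDegree := by rw [hc, hf.natDegree_mul' hc0, hd]
    have hcl : c.leadingCoeff = l := by rw [hl, hc, leadingCoeff_monic_mul hf]
    have hwl : l = w.leadingCoeff ^ 2 := by rw [hl, ← hlc, h2]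
    have hwl0 : w.leadingCoeff ≠ 0 := by
      intro h0
      rw [h0] at hwl
      exact hl0 (by rw [hwl]; ring)
    obtain ⟨c₁, hc₁⟩ : ∃ c₁, c₁ = c * C l⁻¹ := ⟨_, rfl⟩
    have hc₁m : c₁.Monic := by
      rw [hc₁, ← hcl]
      exact monic_mul_leadingCoeff_inv hc0
    have hc₁d : c₁.natDegree = c.natDegree := by
      rw [hc₁, natDegree_mul_C (inv_ne_zero hl0)]
    refine ⟨c₁, w, C w.leadingCoeff⁻¹, hc₁m, by omega, ⟨-u * C l, d ^ 2, ?_⟩, ?_, ?_⟩
    · rw [hc₁]
      linear_combination (-(u * c)) * hCC - huc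
    · have e : w ^ 2 - f = c₁ * (C l * u * f) := by
        rw [hu₂, hc, hc₁]
        linear_combination (-(u * f * c)) * hCC
      rw [e]
      exact dvd_mul_right _ _
    · have hsg : (-1 : E[X]) ^ u.natDegree * (-1) ^ c₁.natDegree = -1 := by
        rw [← pow_add, hc₁d]
        apply Odd.neg_one_pow
        refine ⟨w.natDegree - 2, ?_⟩
        omega
      have hCl : (C l⁻¹ : E[X]) = (C w.leadingCoeff⁻¹) ^ 2 := by
        rw [← C_pow, hwl, inv_pow]
      refine ⟨-(d ^ 2 * C w.leadingCoeff⁻¹ ^ 2), ?_⟩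
      calc (-1) ^ u.natDegree * u * ((-1) ^ c₁.natDegree * c₁) - C w.leadingCoeff⁻¹ ^ 2
          = ((-1) ^ u.natDegree * (-1) ^ c₁.natDegree) * (u * c₁) - C w.leadingCoeff⁻¹ ^ 2 := by ring
        _ = -(u * c₁) - C w.leadingCoeff⁻¹ ^ 2 := by rw [hsg]; ring
        _ = -(u * c) * C l⁻¹ - C w.leadingCoeff⁻¹ ^ 2 := by rw [hc₁]; ring
        _ = -(f * d ^ 2 - 1) * C w.leadingCoeff⁻¹ ^ 2 - C w.leadingCoeff⁻¹ ^ 2 := by rw [huc, hCl]
        _ = _ := by ring
  · -- the cofactor is coprime to `f`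
    obtain ⟨u₃, hu₃⟩ : ∃ u₃, u₃ = u₂ * C l⁻¹ := ⟨_, rfl⟩
    have hu₃m : u₃.Monic := by
      rw [hu₃, hl]
      exact monic_mul_leadingCoeff_inv hu₂0
    have hu₃d : u₃.natDegree = u₂.natDegree := by
      rw [hu₃, natDegree_mul_C (inv_ne_zero hl0)]
    have hcop : IsCoprime u₃ f := by
      have h1 : IsCoprime f u₃ := by
        rw [hirr.coprime_iff_not_dvd]
        intro h
        apply hfu
        have e : u₂ = u₃ * C l := by rw [hu₃]; linear_combination (-u₂) * hCC
        rw [e]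
        exact Dvd.dvd.mul_right h _
      exact h1.symm
    have hdvd3 : u₃ ∣ w ^ 2 - f := by
      have e : w ^ 2 - f = u₃ * (C l * u) := by
        rw [hu₂, hu₃]
        linear_combination (-(u * u₂)) * hCC
      rw [e]
      exact dvd_mul_right _ _
    have hlt : u₃.natDegree < u.natDegree := by
      rcases le_or_gt w.natDegree 1 with h | h
      · have := (hB h).1
        omega
      · have := (hA h).1
        omega
    obtain ⟨κ, hκ⟩ : ∃ κ : E[X], (-1 : E[X]) ^ u.natDegree * (-1) ^ u₃.natDegree * C l⁻¹ = κ ^ 2 := by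
      rcases le_or_gt w.natDegree 1 with h | h
      · obtain ⟨h1, h2⟩ := hB h
        refine ⟨1, ?_⟩
        have hl1 : l = -1 := by rw [hl, ← hlc, h2]
        rw [← pow_add, hu₃d, ← hdeg, h1, hl1]
        rw [inv_neg, inv_one, C_neg, C_1]
        ring
      · obtain ⟨h1, h2⟩ := hA h
        refine ⟨C w.leadingCoeff⁻¹, ?_⟩
        have hl1 : l = w.leadingCoeff ^ 2 := by rw [hl, ← hlc, h2]
        rw [← pow_add, hu₃d, ← hdeg, h1, hl1, pow_mul, neg_one_sq, one_pow, one_mul, ← C_pow, inv_pow]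
    refine ⟨u₃, w, κ * w, hu₃m, hlt, hcop, hdvd3, ⟨-κ ^ 2, ?_⟩⟩
    calc (-1) ^ u.natDegree * u * ((-1) ^ u₃.natDegree * u₃) - (κ * w) ^ 2
        = ((-1) ^ u.natDegree * (-1) ^ u₃.natDegree * C l⁻¹) * (u * u₂) - (κ * w) ^ 2 := by
          rw [hu₃]; ring
      _ = κ ^ 2 * (w ^ 2 - f) - (κ * w) ^ 2 := by rw [hκ, hu₂]
      _ = _ := by ring

theorem comb {f p q r a u r₁ r₂ : E[X]} (h1 : f ∣ p * q - r₁ ^ 2) (h2 : f ∣ q * r - r₂ ^ 2)
    (h3 : f ∣ a * u - 1) (h4 : q ^ 2 = u ^ 2) : f ∣ p * r - (r₁ * r₂ * a) ^ 2 := by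
  obtain ⟨k1, e1⟩ := h1
  obtain ⟨k2, e2⟩ := h2
  obtain ⟨k3, e3⟩ := h3
  refine ⟨(a ^ 2 * r₂ ^ 2) * k1 + (a ^ 2 * p * q) * k2 - (p * r * (a * u + 1)) * k3, ?_⟩
  linear_combination (a ^ 2 * r₂ ^ 2) * e1 + (a ^ 2 * p * q) * e2 - (p * r * (a * u + 1)) * e3 -
    (a ^ 2 * p * r) * h4

theorem sgn_sq (n : ℕ) (u : E[X]) : ((-1) ^ n * u) ^ 2 = u ^ 2 := by
  rw [mul_pow, ← pow_mul, mul_comm n 2, pow_mul, neg_one_sq, one_pow, one_mul]

/-- the reduction -/
theorem red_all (f : E[X]) (hf : f.Monic) (hd : f.natDegree = 3) (hirr : Irreducible f) :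
    ∀ (n : ℕ) (u v : E[X]), u.natDegree = n → u.Monic → IsCoprime u f → u ∣ v ^ 2 - f →
    ∃ u' v' r : E[X], u'.Monic ∧ u'.natDegree ≤ 1 ∧ IsCoprime u' f ∧ u' ∣ v' ^ 2 - f ∧
      f ∣ ((-1) ^ u.natDegree * u) * ((-1) ^ u'.natDegree * u') - r ^ 2 := by
  intro n
  induction n using Nat.strong_induction_on with
  | _ n ih =>
    intro u v hun hu hcop huv
    rcases le_or_gt u.natDegree 1 with h | h
    · refine ⟨u, v, u, hu, h, hcop, huv, ?_⟩
      have e : (-1) ^ u.natDegree * u * ((-1) ^ u.natDegree * u) - u ^ 2 = 0 := by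
        have := sgn_sq u.natDegree u
        linear_combination this
      rw [e]
      exact dvd_zero _
    · obtain ⟨u₃, v₃, r₃, a1, a2, a3, a4, a5⟩ := red_step f hf hd hirr u v hu h huv
      obtain ⟨u', v', r', b1, b2, b3, b4, b5⟩ := ih u₃.natDegree (by omega) u₃ v₃ rfl a1 a3 a4
      obtain ⟨a, b, hab⟩ := a3
      refine ⟨u', v', r₃ * r' * a, b1, b2, b3, b4, comb a5 b5 (u := u₃) ⟨-b, ?_⟩ (sgn_sq _ _)⟩
      linear_combination hab

end

/-- **LP2** -/
theorem lp2 : S_LP2 := by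
  intro M E _ _ _ _ A B h hirr hcop hsq hloc
  have : CharZero E := charZero_of_injective_algebraMap (algebraMap M E).injective
  obtain ⟨f, hf⟩ : ∃ f, f = (cb A B).map (algebraMap M E) := ⟨_, rfl⟩
  have hfe : f = X ^ 3 + C (algebraMap M E A) * X + C (algebraMap M E B) := by
    rw [hf]
    simp only [cb, Polynomial.map_add, Polynomial.map_mul, Polynomial.map_pow, map_X, map_C]
  have hdeg : f.natDegree = 3 := by
    rw [hfe]
    compute_degree!
  have hmon : f.Monic := by
    rw [hfe]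
    monicity!
  rw [← hf] at hirr
  have hloc' : LocIm E f (h.map (algebraMap M E)) := by
    rw [hf]
    exact hloc
  obtain ⟨u, v, s, hu, hcu, huv, hs⟩ := Pool.Agent.N2.PQ.cant E 1 f (h.map (algebraMap M E)) hmon
    (by rw [hdeg]) hloc'
  obtain ⟨u', v', r, hu', hd', hc', huv', hr⟩ := red_all f hmon hdeg hirr _ u v rfl hu hcu huv
  obtain ⟨a, b, hab⟩ := hcu
  have h3 : f ∣ a * u - 1 := ⟨-b, by linear_combination hab⟩
  have key := comb hs hr h3 (sgn_sq _ _)
  rcases Nat.le_one_iff_eq_zero_or_eq_one.1 hd' with h0 | h0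
  · left
    have h1 : u' = 1 := eq_one_of_monic_natDegree_zero hu' h0
    rw [h0, h1, pow_zero, mul_one, mul_one] at key
    exact ⟨_, by rw [← hfe]; exact key⟩
  · right
    obtain ⟨x, hx⟩ : ∃ x, x = -u'.coeff 0 := ⟨_, rfl⟩
    have h1 : u' = X - C x := by
      rw [hx, C_neg, sub_neg_eq_add]
      exact hu'.eq_X_add_C h0
    have h2 : (v'.eval x) ^ 2 = f.eval x := by
      obtain ⟨k, hk⟩ := huv'
      have := congrArg (fun p : E[X] => p.eval x) hk
      simp only [eval_sub, eval_pow, eval_mul, h1, eval_X, eval_C, sub_self, zero_mul] at this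
      linear_combination this
    refine ⟨x, v'.eval x, ?_, ?_, s * r * a, ?_⟩
    · intro hy
      rw [hy] at h2
      have h4 : IsRoot f x := by
        show f.eval x = 0
        rw [← h2]; ring
      have h5 := degree_eq_one_of_irreducible_of_root hirr h4
      rw [degree_eq_natDegree hmon.ne_zero, hdeg] at h5
      norm_num at h5
    · rw [h2, hfe]
      simp
    · rw [← hfe]
      rw [h0, h1, pow_one] at key
      have e : (C x - X) * h.map (algebraMap M E) = h.map (algebraMap M E) * (-1 * (X - C x)) := by ring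
      rw [e]
      exact key

end Run7.h824.SR
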